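import Mathlib
import Pool.Agent.H176C.Pairs

set_option autoImplicit false

/-!
# Generalized Mersenne numbers: the correlation functions of the exponents, all pairs at once

For integers `a > 1`, `-a < b < a`, a real `β > 0` and a prime `p` let `D a β p` be the largest integer
below `β * a ^ p`, and let `W a b β p` be the `p`-rough part (the product, with multiplicity, of the
prime factors larger than `p`) of `(a ^ p - b ^ p) / (a - b) + D a β p - D a (1 / (a - b)) p`.  At the
amplitude `β = 1 / (a - b)` this is `(a ^ p - b ^ p) / (a - b)` itself, for coprime `a`, `b` and `p` prime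
to `a - b`.  The exponents of `(a, b, β)` are the primes `p` with `W a b β p` prime; `E a b β x y` is the
set of the exponents in `(x, y]`.  Let `c = e ^ γ / log a`.

We prove that for almost every `β > 0`, simultaneously for all pairs `(a, b)`, all correlation functions
of the exponents exist at ratios above `3/2` and are those of a Poisson process of intensity `c` in the
variable `log p`: for all windows `(u i, v i]` with `3/2 < u i` and `3/2 * v i < u j` for `i < j`, the
number of tuples `(p, p_0, …, p_(k-1))` of exponents with `p ≤ n` and `p_i / p` in `(u i, v i]` is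
`(c + o (1)) (log n) ∏ c log (v i / u i)`.
-/

namespace Pool.Agent.Results.MP_de9007_nt.CorrelationFunctions

open Filter Topology MeasureTheory

/-- The product, with multiplicity, of the prime factors of `m` that are larger than `p`. -/
def roughPart (p m : ℕ) : ℕ := (m.primeFactorsList.filter (fun r => p < r)).prod

/-- The largest integer below `β * a ^ p`. -/
noncomputable def D (a : ℤ) (β : ℝ) (p : ℕ) : ℕ := ⌈β * (a : ℝ) ^ p⌉₊ - 1

/-- The `p`-rough part of `(a ^ p - b ^ p) / (a - b) + D a β p - D a (1 / (a - b)) p`. -/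
noncomputable def W (a b : ℤ) (β : ℝ) (p : ℕ) : ℕ :=
  roughPart p ((a ^ p - b ^ p) / (a - b) + D a β p - D a (1 / ((a : ℝ) - b)) p).toNat

/-- The set of the primes `p` in `(x, y]` with `W a b β p` prime. -/
noncomputable def E (a b : ℤ) (β x y : ℝ) : Finset ℕ :=
  (Finset.Ioc ⌊x⌋₊ ⌊y⌋₊).filter (fun p => p.Prime ∧ (W a b β p).Prime)

lemma W_special {a b : ℤ} (hab : IsCoprime a b) (h1 : -a < b) (h2 : b < a) {p : ℕ} (hp : p.Prime)
    (hpd : ¬ (p : ℤ) ∣ a - b) : (W a b (1 / ((a : ℝ) - b)) p : ℤ) = (a ^ p - b ^ p) / (a - b) := by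
  unfold W
  rw [add_sub_cancel_right]
  exact Pool.Agent.H176C.rough_special hab h1 h2 hp hpd

lemma W_eq (A : ℕ) (b : ℤ) (β : ℝ) (p : ℕ) :
    W A b β p = Pool.Agent.H176C.WP A (Pool.Agent.H176C.gP A b) β p := by
  unfold W Pool.Agent.H176C.WP Pool.Agent.H176C.SP
  have e : ((A : ℤ) ^ p - b ^ p) / ((A : ℤ) - b) + (D A β p : ℤ) - (D A (1 / (((A : ℤ) : ℝ) - b)) p : ℤ) =
      ((Pool.Agent.H176B.DB A β p : ℕ) : ℤ) + Pool.Agent.H176C.gP A b p := by
    unfold D Pool.Agent.H176C.gP Pool.Agent.H176B.DB Pool.Agent.H176C.MN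
    rw [Int.cast_natCast]
    ring
  rw [e]
  rfl

lemma E_eq (A : ℕ) (b : ℤ) (β x y : ℝ) :
    E A b β x y = Pool.Agent.H176C.EP A (Pool.Agent.H176C.gP A b) β x y := by
  unfold E Pool.Agent.H176C.EP
  simp only [W_eq]

/-- At `β = 1 / (a - b)` the numbers are those of the conjecture; the correlation functions of the
exponents, for almost every amplitude and all pairs at once. -/
theorem result :
    (∀ a b : ℤ, IsCoprime a b → -a < b → b < a → ∀ p : ℕ, p.Prime → ¬ (p : ℤ) ∣ a - b →
      (W a b (1 / ((a : ℝ) - b)) p : ℤ) = (a ^ p - b ^ p) / (a - b)) ∧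
    (∀ᵐ β : ℝ, 0 < β → ∀ a b : ℤ, 1 < a → -a < b → b < a →
      ∀ (k : ℕ) (u v : ℕ → ℝ), (∀ i < k, 3 / 2 < u i ∧ u i < v i) →
      (∀ i j : ℕ, i < j → j < k → 3 / 2 * v i < u j) →
      Tendsto (fun n : ℕ => (∑ p ∈ E a b β 0 n, ∏ i ∈ Finset.range k,
        ((E a b β (u i * p) (v i * p)).card : ℝ)) / Real.log n) atTop
        (𝓝 (Real.exp Real.eulerMascheroniConstant / Real.log a * ∏ i ∈ Finset.range k,
          Real.exp Real.eulerMascheroniConstant / Real.log a * Real.log (v i / u i)))) := by
  refine ⟨fun a b hab h1 h2 p hp hpd => W_special hab h1 h2 hp hpd,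
    Pool.Agent.H176C.all_pairs fun a b ha h1 h2 => ?_⟩
  obtain ⟨A, rfl⟩ := Int.eq_ofNat_of_zero_le (show 0 ≤ a by omega)
  have hA : 1 < A := by exact_mod_cast ha
  filter_upwards [Pool.Agent.H176C.corr_ptb (b := A) (by omega) (g := Pool.Agent.H176C.gP A b)
    (Pool.Agent.H176C.κP_nonneg b) (Pool.Agent.H176C.κP_lt hA h1 h2)
    (Pool.Agent.H176C.gP_bound hA h2)] with β hβ hβ0 k u v h3 h4
  have h5 := hβ hβ0 k u v h3 h4
  simp only [E_eq, Int.cast_natCast]
  exact h5

end Pool.Agent.Results.MP_de9007_nt.CorrelationFunctions
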