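import Mathlib
import Pool.Agent.H176C.Pairs

set_option autoImplicit false

/-!
# Generalized Mersenne numbers: the exponents are independent of the leading digits

For integers `a > 1`, `-a < b < a`, a real `β > 0` let `D a β r` be the largest integer below
`β * a ^ r` (the leading digits of `β` in base `a`, up to the `r`-th behind the point), and for a prime
`p` let `W a b β p` be the `p`-rough part (the product, with multiplicity, of the prime factors larger
than `p`) of `(a ^ p - b ^ p) / (a - b) + D a β p - D a (1 / (a - b)) p`.  At the amplitude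
`β = 1 / (a - b)` this is `(a ^ p - b ^ p) / (a - b)` itself, for coprime `a`, `b` and `p` prime to
`a - b`.  The exponents of `(a, b, β)` are the primes `p` with `W a b β p` prime.  Let `c = e ^ γ / log a`
and let `w T` be the sum of `log p / p` over `p` in the finite set `T` of primes.  We prove for every
pair:

* the numbers of exponents in finite sets `T_i` of primes of the windows `(u_i z, v_i z]` with
  `(3/2) v_i < u_j` for `i < j` are, as `z → ∞`, independent in the mean of each other and of the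
  leading `ρ z` digits of `β`, for `(3/2) ρ < u_i`: for every `η > 0`, every `A` and all large `z`,
  uniformly in the sets `T_i` and in the functions `F` of the leading digits with `|F| ≤ 1`, the mean of
  `F` times the product of these numbers is the product of the `c w (T_i)` times the mean of `F`, up to
  `η` times the product of the `w (T_i)` times (the mean of `|F|`, plus `z ^ (-A)`);
* in particular the mean of the product of the numbers of exponents in the windows tends to the
  product of the `c log (v_i / u_i)`.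

The input from number theory is that almost all intervals of length `X ^ (1/3 + ε)` below `X` contain
the expected number of primes, with a saving of any power of `log X` in mean square (project UT of this
library).
-/

namespace Pool.Agent.Results.MP_de9007_nt.LeadingDigits

open Filter Topology MeasureTheory

/-- The product, with multiplicity, of the prime factors of `m` that are larger than `p`. -/
def roughPart (p m : ℕ) : ℕ := (m.primeFactorsList.filter (fun r => p < r)).prod

/-- The largest integer below `β * a ^ r`. -/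
noncomputable def D (a : ℤ) (β : ℝ) (r : ℕ) : ℕ := ⌈β * (a : ℝ) ^ r⌉₊ - 1

/-- The `p`-rough part of `(a ^ p - b ^ p) / (a - b) + D a β p - D a (1 / (a - b)) p`. -/
noncomputable def W (a b : ℤ) (β : ℝ) (p : ℕ) : ℕ :=
  roughPart p ((a ^ p - b ^ p) / (a - b) + D a β p - D a (1 / ((a : ℝ) - b)) p).toNat

/-- The number of `p` in the finite set `T` for which `W a b β p` is prime. -/
noncomputable def N (a b : ℤ) (T : Finset ℕ) (β : ℝ) : ℕ := (T.filter (fun p => (W a b β p).Prime)).card

/-- The sum of `log p / p` over `p` in the finite set `T`. -/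
noncomputable def w (T : Finset ℕ) : ℝ := ∑ p ∈ T, Real.log p / p

/-- The set of the primes in the interval `(x, y]`. -/
noncomputable def P (x y : ℝ) : Finset ℕ := (Finset.Ioc ⌊x⌋₊ ⌊y⌋₊).filter Nat.Prime

lemma W_special {a b : ℤ} (hab : IsCoprime a b) (h1 : -a < b) (h2 : b < a) {p : ℕ} (hp : p.Prime)
    (hpd : ¬ (p : ℤ) ∣ a - b) : (W a b (1 / ((a : ℝ) - b)) p : ℤ) = (a ^ p - b ^ p) / (a - b) := by
  unfold W
  rw [add_sub_cancel_right]
  exact Pool.Agent.H176C.rough_special hab h1 h2 hp hpd

lemma D_eq (A : ℕ) (β : ℝ) (r : ℕ) : D A β r = Pool.Agent.H176B.DB A β r := by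
  unfold D Pool.Agent.H176B.DB
  rw [Int.cast_natCast]

lemma W_eq (A : ℕ) (b : ℤ) (β : ℝ) (p : ℕ) :
    W A b β p = Pool.Agent.H176C.WP A (Pool.Agent.H176C.gP A b) β p := by
  unfold W Pool.Agent.H176C.WP Pool.Agent.H176C.SP
  have e : ((A : ℤ) ^ p - b ^ p) / ((A : ℤ) - b) + (D A β p : ℤ) - (D A (1 / (((A : ℤ) : ℝ) - b)) p : ℤ) =
      ((Pool.Agent.H176B.DB A β p : ℕ) : ℤ) + Pool.Agent.H176C.gP A b p := by
    unfold D Pool.Agent.H176C.gP Pool.Agent.H176B.DB Pool.Agent.H176C.MN
    rw [Int.cast_natCast]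
    ring
  rw [e]
  rfl

lemma N_eq (A : ℕ) (b : ℤ) (T : Finset ℕ) (β : ℝ) :
    N A b T β = Pool.Agent.H176C.NP A (Pool.Agent.H176C.gP A b) T β := by
  unfold N Pool.Agent.H176C.NP
  simp only [W_eq]

/-- At `β = 1 / (a - b)` the numbers are those of the conjecture; the joint correlations of distant
exponents and their independence of the leading digits; the joint correlations of distant windows. -/
theorem result :
    (∀ a b : ℤ, IsCoprime a b → -a < b → b < a → ∀ p : ℕ, p.Prime → ¬ (p : ℤ) ∣ a - b →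
      (W a b (1 / ((a : ℝ) - b)) p : ℤ) = (a ^ p - b ^ p) / (a - b)) ∧
    (∀ a b : ℤ, 1 < a → -a < b → b < a →
      ∀ (k A : ℕ) (ρ : ℝ) (u v : ℕ → ℝ), 0 ≤ ρ → (∀ i < k, 0 < u i ∧ u i < v i) →
      (∀ i j : ℕ, i < j → j < k → 3 / 2 * v i < u j) → (∀ i < k, 3 / 2 * ρ < u i) →
      ∀ s t : ℝ, s ≤ t → ∀ η : ℝ, 0 < η → ∀ᶠ z : ℝ in atTop,
      ∀ T : ℕ → Finset ℕ, (∀ i < k, ∀ p ∈ T i, p.Prime ∧ u i * z < p ∧ (p : ℝ) ≤ v i * z) →
      ∀ F : ℕ → ℝ, (∀ n, |F n| ≤ 1) →
        |(∫ x in s..t, F (D a (Real.exp x) ⌊ρ * z⌋₊) *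
            ∏ i ∈ Finset.range k, (N a b (T i) (Real.exp x) : ℝ)) -
          (∏ i ∈ Finset.range k, Real.exp Real.eulerMascheroniConstant / Real.log a * w (T i)) *
            ∫ x in s..t, F (D a (Real.exp x) ⌊ρ * z⌋₊)| ≤
        η * (∏ i ∈ Finset.range k, w (T i)) *
          ((∫ x in s..t, |F (D a (Real.exp x) ⌊ρ * z⌋₊)|) + 1 / z ^ A)) ∧
    (∀ a b : ℤ, 1 < a → -a < b → b < a →
      ∀ (k : ℕ) (u v : ℕ → ℝ), (∀ i < k, 0 < u i ∧ u i < v i) →
      (∀ i j : ℕ, i < j → j < k → 3 / 2 * v i < u j) → ∀ s t : ℝ, s ≤ t →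
      Tendsto (fun z : ℝ => ∫ x in s..t,
        ∏ i ∈ Finset.range k, (N a b (P (u i * z) (v i * z)) (Real.exp x) : ℝ)) atTop
        (𝓝 ((t - s) * ∏ i ∈ Finset.range k,
          Real.exp Real.eulerMascheroniConstant / Real.log a * Real.log (v i / u i)))) := by
  refine ⟨fun a b hab h1 h2 p hp hpd => W_special hab h1 h2 hp hpd,
    fun a b ha h1 h2 k A ρ u v hρ h0 h3 h4 s t hst η hη => ?_,
    fun a b ha h1 h2 k u v h0 h3 s t hst => ?_⟩
  · obtain ⟨m, rfl⟩ := Int.eq_ofNat_of_zero_le (show 0 ≤ a by omega)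
    have hm : 1 < m := by exact_mod_cast ha
    have h := Pool.Agent.H176C.joint_ptb (b := m) (by omega) (g := Pool.Agent.H176C.gP m b)
      (Pool.Agent.H176C.κP_nonneg b) (Pool.Agent.H176C.κP_lt hm h1 h2)
      (Pool.Agent.H176C.gP_bound hm h2) k A ρ u v hρ h0 h3 h4 s t hst η hη
    simp only [D_eq, N_eq, Int.cast_natCast]
    exact h
  · obtain ⟨m, rfl⟩ := Int.eq_ofNat_of_zero_le (show 0 ≤ a by omega)
    have hm : 1 < m := by exact_mod_cast ha
    have h := Pool.Agent.H176C.mean_ptb (b := m) (by omega) (g := Pool.Agent.H176C.gP m b)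
      (Pool.Agent.H176C.κP_nonneg b) (Pool.Agent.H176C.κP_lt hm h1 h2)
      (Pool.Agent.H176C.gP_bound hm h2) k u v h0 h3 s t hst
    simp only [N_eq, Int.cast_natCast]
    exact h

end Pool.Agent.Results.MP_de9007_nt.LeadingDigits
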