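import Mathlib
import Pool.Agent.Helper53.GE.Asym

/-!
# Large divisors of generalized Mersenne numbers divide no sparse form

Let `(a, b)` be an admissible pair and `M_p = (a ^ p - b ^ p) / (a - b)` for primes `p`.

* If `z = ∑ c_i a ^ i b ^ (F - i)` has at most `k` terms with `|c_i| ≤ H` and `a ^ p - b ^ p` does not divide `z`,
  then the greatest common divisor of `z` and `a ^ p - b ^ p` is at most
  `(k H a) ^ (N ^ (k - 1)) a ^ (2 p / N)` for every `N` with `N ^ (k - 1) < p`.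
* So for all `δ > 0` and `H` there is `c > 0` such that for all large primes `p` no divisor `x ≥ a ^ (δ p)` of
  `M_p` divides such a number `z` with `k ≤ c log p` terms.
* In particular this holds for the larger factor in every factorization `M_p = x y`.

Proof. By Dirichlet's theorem the exponents `i` are near to the multiples of `p / q` for some `q ≤ N ^ (k - 1)`.
The determinant of the multiplication by `∑ c_i T ^ i` on the module with `T ^ p = 1` generated by a formal `q`-th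
root of `T ^ p` is a polynomial of small degree and height in `T`, which vanishes at `a / b` modulo `x` and does not
vanish at the rational number `a / b`, since `X ^ q - (b / a) ^ p` is irreducible for admissible pairs.
-/

set_option autoImplicit false

namespace Pool.Agent.Results.MP_de9007_nt.SparseForms

/-- the admissible pairs of the question -/
def Admissible (a b : ℤ) : Prop :=
  IsCoprime a b ∧ 1 < a ∧ -a < b ∧ b < a ∧
    (¬ ∃ r : ℕ, 1 < r ∧ (∃ u : ℤ, u ^ r = a) ∧ ∃ v : ℤ, v ^ r = b) ∧ ¬ ∃ w : ℤ, w ^ 4 = -4 * a * b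

/-- the numbers of the question -/
def M (p : ℕ) (a b : ℤ) : ℤ := (a ^ p - b ^ p) / (a - b)

/-- `z` is the sum of at most `k` terms `c_i a ^ i b ^ (F - i)` with different `i ≤ F` and integers
`c_i` with `|c_i| ≤ H` -/
def SparseForm (a b : ℤ) (k H : ℕ) (z : ℤ) : Prop :=
  ∃ (F : ℕ) (s : Finset ℕ) (c : ℕ → ℤ), s.card ≤ k ∧ (∀ i ∈ s, i ≤ F ∧ |c i| ≤ H) ∧
    z = ∑ i ∈ s, c i * a ^ i * b ^ (F - i)

lemma M_mul (p : ℕ) (a b : ℤ) : M p a b * (a - b) = a ^ p - b ^ p :=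
  Int.ediv_mul_cancel (sub_dvd_pow_sub_pow a b p)

lemma M_dvd (p : ℕ) (a b : ℤ) : M p a b ∣ a ^ p - b ^ p := ⟨a - b, (M_mul p a b).symm⟩

lemma M_large {a b : ℤ} (ha : 1 < a) (h1 : -a < b) (h2 : b < a) {p : ℕ} (hp : Odd p) :
    a ^ (p - 1) ≤ 2 * M p a b := by
  have h3 := M_mul p a b
  obtain ⟨t, ht⟩ := hp
  have h4 : a ^ p = a * a ^ (p - 1) := by rw [← pow_succ']; congr 1; omega
  have h5 : b ^ p = b * b ^ (p - 1) := by rw [← pow_succ']; congr 1; omega
  have hA : 0 < a ^ (p - 1) := by positivity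
  have hB : 0 ≤ b ^ (p - 1) := by
    have : p - 1 = 2 * t := by omega
    rw [this, pow_mul]
    positivity
  have hBA : b ^ (p - 1) ≤ a ^ (p - 1) := by
    have e1 : p - 1 = 2 * t := by omega
    rw [e1, pow_mul, pow_mul]
    exact pow_le_pow_left₀ (sq_nonneg _) (by nlinarith) t
  have h6 : 0 < a - b := by linarith
  rcases le_or_gt 0 b with hb | hb
  · have h7 : a ^ (p - 1) * (a - b) ≤ M p a b * (a - b) := by
      rw [h3, h4, h5]
      nlinarith
    have h8 := le_of_mul_le_mul_right h7 h6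
    linarith
  · have h7 : a ^ (p - 1) * (a - b) ≤ 2 * M p a b * (a - b) := by
      rw [mul_assoc, h3, h4, h5]
      nlinarith
    exact le_of_mul_le_mul_right h7 h6

theorem asym {a b : ℤ} (hab : Admissible a b) (H : ℕ) {δ : ℝ} (hδ : 0 < δ) :
    ∃ c : ℝ, 0 < c ∧ ∃ p₀ : ℕ, ∀ p : ℕ, p₀ ≤ p → p.Prime → ∀ (k : ℕ) (x z : ℤ),
      x ∣ M p a b → (a : ℝ) ^ (δ * p) ≤ |(x : ℝ)| → x ∣ z → ¬ (a ^ p - b ^ p) ∣ z →
      SparseForm a b k H z → c * Real.log p < k := by
  have ha := hab.2.1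
  lift a to ℕ using (by omega) with A
  obtain ⟨c, hc, p₀, h⟩ := Pool.Agent.Helper53.GE.pair_asym (a := A) (b := b) hab H hδ
  refine ⟨c, hc, p₀, ?_⟩
  intro p hp0 hp k x z hx hxδ hxz hnot hz
  exact h p hp0 hp k x z (hx.trans (M_dvd p _ b)) (by push_cast at hxδ; exact hxδ) hxz hnot hz

theorem result (a b : ℤ) (hab : Admissible a b) :
    -- common divisors with sparse forms
    (∀ (p k H N : ℕ) (z : ℤ), p.Prime → 1 ≤ N → N ^ (k - 1) < p → SparseForm a b k H z →
      ¬ (a ^ p - b ^ p) ∣ z →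
      (Int.gcd z (a ^ p - b ^ p) : ℤ) ≤ (k * H * a) ^ (N ^ (k - 1)) * a ^ (2 * p / N)) ∧
    -- multiples of large divisors
    (∀ (H : ℕ) (δ : ℝ), 0 < δ → ∃ c : ℝ, 0 < c ∧ ∃ p₀ : ℕ, ∀ p : ℕ, p₀ ≤ p → p.Prime →
      ∀ (k : ℕ) (x z : ℤ), x ∣ M p a b → (a : ℝ) ^ (δ * p) ≤ |(x : ℝ)| → x ∣ z →
      ¬ (a ^ p - b ^ p) ∣ z → SparseForm a b k H z → c * Real.log p < k) ∧
    -- factorizations
    (∀ H : ℕ, ∃ c : ℝ, 0 < c ∧ ∃ p₀ : ℕ, ∀ p : ℕ, p₀ ≤ p → p.Prime → ∀ x y : ℤ, 1 < y → y ≤ x →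
      x * y = M p a b → ∀ (k : ℕ) (z : ℤ), x ∣ z → ¬ (a ^ p - b ^ p) ∣ z →
      SparseForm a b k H z → c * Real.log p < k) := by
  refine ⟨?_, fun H δ hδ => asym hab H hδ, ?_⟩
  · intro p k H N z hp hN hNp hz hnot
    have ha := hab.2.1
    lift a to ℕ using (by omega) with A
    rcases Pool.Agent.Helper53.GE.pair_explicit (a := A) (b := b) hab hp hN hNp (z := z)
      (x := (Int.gcd z ((A : ℤ) ^ p - b ^ p) : ℤ)) hz (Int.gcd_dvd_right _ _) (Int.gcd_dvd_left _ _)
      with h | h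
    · exact absurd h hnot
    · rw [Nat.abs_cast] at h
      push_cast at h ⊢
      exact h
  · intro H
    obtain ⟨c, hc, p₀, h⟩ := asym hab H (by norm_num : (0 : ℝ) < 1 / 4)
    refine ⟨c, hc, max p₀ 4, ?_⟩
    intro p hp0 hp x y hy hyx hxy k z hxz hnot hz
    have hp4 : 4 ≤ p := le_trans (le_max_right _ _) hp0
    refine h p (le_trans (le_max_left _ _) hp0) hp k x z ⟨y, hxy.symm⟩ ?_ hxz hnot hz
    have hx : 1 < x := lt_of_lt_of_le hy hyx
    have ha := hab.2.1
    have hpodd : Odd p := hp.odd_of_ne_two (by omega)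
    have hM := M_large ha hab.2.2.1 hab.2.2.2.1 hpodd
    have h1 : a ^ (p - 2) ≤ x ^ 2 := by
      have e1 : a ^ (p - 1) = a * a ^ (p - 2) := by
        rw [← pow_succ']
        congr 1
        omega
      have e2 : 0 < a ^ (p - 2) := by positivity
      nlinarith
    have h2 : a ^ p ≤ x ^ 4 := by
      calc a ^ p ≤ a ^ (2 * (p - 2)) := pow_le_pow_right₀ (by omega) (by omega)
        _ = (a ^ (p - 2)) ^ 2 := by rw [mul_comm, pow_mul]
        _ ≤ (x ^ 2) ^ 2 := pow_le_pow_left₀ (by positivity) h1 2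
        _ = x ^ 4 := by ring
    have h3 : (a : ℝ) ^ p ≤ (x : ℝ) ^ 4 := by exact_mod_cast h2
    have hx0 : (0 : ℝ) < x := by exact_mod_cast (by linarith : (0 : ℤ) < x)
    have ha0 : (0 : ℝ) < a := by exact_mod_cast (by linarith : (0 : ℤ) < a)
    rw [abs_of_pos hx0]
    have h4 : ((a : ℝ) ^ (1 / 4 * (p : ℝ))) ^ 4 ≤ (x : ℝ) ^ 4 := by
      rw [← Real.rpow_natCast, ← Real.rpow_mul ha0.le]
      have e3 : 1 / 4 * (p : ℝ) * ((4 : ℕ) : ℝ) = p := by push_cast; ring
      rw [e3, Real.rpow_natCast]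
      exact h3
    exact (pow_le_pow_iff_left₀ (by positivity) hx0.le (by norm_num)).1 h4

end Pool.Agent.Results.MP_de9007_nt.SparseForms
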