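import Mathlib
import Pool.Agent.H176C.Pairs

set_option autoImplicit false

/-!
# Generalized Mersenne numbers: the law for every set of exponents of divergent weight

For integers `a > 1`, `-a < b < a`, a real `β > 0` and a prime `p` let `D a β p` be the largest integer
below `β * a ^ p`, and let `W a b β p` be the `p`-rough part (the product, with multiplicity, of the
prime factors larger than `p`) of `(a ^ p - b ^ p) / (a - b) + D a β p - D a (1 / (a - b)) p`.  At the
amplitude `β = 1 / (a - b)` this is `(a ^ p - b ^ p) / (a - b)` itself, for coprime `a`, `b` and `p` prime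
to `a - b`.  For a set `S` let `M S a b β n` be the number of primes `p ≤ n` in `S` with `W a b β p`
prime, and let `V S n` be the sum of `log p / p` over the primes `p ≤ n` in `S`.  We prove:

* for every sequence `S 0, S 1, …` of sets with `V (S i) n → ∞`, however sparse, and almost every
  `β > 0`, simultaneously for all pairs `(a, b)` and all `i`,
  `M (S i) a b β n = (e ^ γ / log a) V + O(V ^ (1/2) (log V) ^ 2)`, `V = V (S i) n`;
* for almost every `β > 0`, simultaneously for all pairs `(a, b)`, the number of primes `p ≤ n` with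
  `W a b β p` prime is `(e ^ γ / log a) log n + O((log n) ^ (1/2) (log log n) ^ 2)`.

The starting file `SetsOfExponents` has `V L`, `L = log log n`, in place of `V` in the error term for a
set, which is larger than the main term for sparse sets, and the exponent `5/2` of `log log n` for all
primes (for the variant `⌊β a ^ p - b ^ p / (a - b)⌋` of the numbers).
-/

namespace Pool.Agent.Results.MP_de9007_nt.SparseSetsLaw

open Filter Topology MeasureTheory Asymptotics

/-- The product, with multiplicity, of the prime factors of `m` that are larger than `p`. -/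
def roughPart (p m : ℕ) : ℕ := (m.primeFactorsList.filter (fun r => p < r)).prod

/-- The largest integer below `β * a ^ p`. -/
noncomputable def D (a : ℤ) (β : ℝ) (p : ℕ) : ℕ := ⌈β * (a : ℝ) ^ p⌉₊ - 1

/-- The `p`-rough part of `(a ^ p - b ^ p) / (a - b) + D a β p - D a (1 / (a - b)) p`. -/
noncomputable def W (a b : ℤ) (β : ℝ) (p : ℕ) : ℕ :=
  roughPart p ((a ^ p - b ^ p) / (a - b) + D a β p - D a (1 / ((a : ℝ) - b)) p).toNat

open Classical in
/-- The number of primes `p ≤ n` in the set `S` for which `W a b β p` is prime. -/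
noncomputable def M (S : Set ℕ) (a b : ℤ) (β : ℝ) (n : ℕ) : ℕ :=
  ((Finset.range (n + 1)).filter (fun p => p.Prime ∧ p ∈ S ∧ (W a b β p).Prime)).card

open Classical in
/-- The sum of `log p / p` over the primes `p ≤ n` in the set `S`. -/
noncomputable def V (S : Set ℕ) (n : ℕ) : ℝ :=
  ∑ p ∈ (Finset.range (n + 1)).filter (fun p => p.Prime ∧ p ∈ S), Real.log p / p

lemma V_eq (S : Set ℕ) : V S = Pool.Agent.TH888.R.VS S := by
  classical
  funext n
  unfold V Pool.Agent.TH888.R.VS
  rw [Finset.sum_filter]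
  refine Finset.sum_congr rfl fun p _ => ?_
  by_cases h : p.Prime ∧ p ∈ S
  · rw [if_pos h, if_pos ⟨h.2, h.1⟩]
    rfl
  · rw [if_neg h, if_neg fun h1 => h ⟨h1.2, h1.1⟩]

lemma W_special {a b : ℤ} (hab : IsCoprime a b) (h1 : -a < b) (h2 : b < a) {p : ℕ} (hp : p.Prime)
    (hpd : ¬ (p : ℤ) ∣ a - b) : (W a b (1 / ((a : ℝ) - b)) p : ℤ) = (a ^ p - b ^ p) / (a - b) := by
  unfold W
  rw [add_sub_cancel_right]
  exact Pool.Agent.H176C.rough_special hab h1 h2 hp hpd

lemma W_eq (A : ℕ) (b : ℤ) (β : ℝ) (p : ℕ) :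
    W A b β p = Pool.Agent.H176C.WP A (Pool.Agent.H176C.gP A b) β p := by
  unfold W Pool.Agent.H176C.WP Pool.Agent.H176C.SP
  have e : ((A : ℤ) ^ p - b ^ p) / ((A : ℤ) - b) + (D A β p : ℤ) - (D A (1 / (((A : ℤ) : ℝ) - b)) p : ℤ) =
      ((Pool.Agent.H176B.DB A β p : ℕ) : ℤ) + Pool.Agent.H176C.gP A b p := by
    unfold D Pool.Agent.H176C.gP Pool.Agent.H176B.DB Pool.Agent.H176C.MN
    rw [Int.cast_natCast]
    ring
  rw [e]
  rfl

lemma M_eq (S : Set ℕ) (A : ℕ) (b : ℤ) (β : ℝ) (n : ℕ) : M S A b β n =
    Pool.Agent.TH888.R.cS S (Pool.Agent.H176C.SP A (Pool.Agent.H176C.gP A b) β) n := by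
  classical
  have h : ∀ p, W A b β p = Pool.Agent.H305R2.roughPart p
      (Pool.Agent.H176C.SP A (Pool.Agent.H176C.gP A b) β p) := fun p => W_eq A b β p
  unfold M Pool.Agent.TH888.R.cS
  simp only [h]

/-- At `β = 1 / (a - b)` the numbers are those of the conjecture; for every sequence of sets of primes
of divergent weight and almost every amplitude, and all pairs at once, the law holds with a square root
error term in terms of the weight alone; the law for all primes. -/
theorem result :
    (∀ a b : ℤ, IsCoprime a b → -a < b → b < a → ∀ p : ℕ, p.Prime → ¬ (p : ℤ) ∣ a - b →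
      (W a b (1 / ((a : ℝ) - b)) p : ℤ) = (a ^ p - b ^ p) / (a - b)) ∧
    (∀ S : ℕ → Set ℕ, (∀ i, Tendsto (V (S i)) atTop atTop) →
      ∀ᵐ β : ℝ, 0 < β → ∀ a b : ℤ, 1 < a → -a < b → b < a → ∀ i : ℕ,
      (fun n : ℕ => (M (S i) a b β n : ℝ) -
        Real.exp Real.eulerMascheroniConstant / Real.log a * V (S i) n) =O[atTop]
      (fun n : ℕ => Real.sqrt (V (S i) n) * (Real.log (V (S i) n)) ^ 2)) ∧
    (∀ᵐ β : ℝ, 0 < β → ∀ a b : ℤ, 1 < a → -a < b → b < a →
      (fun n : ℕ => (M Set.univ a b β n : ℝ) -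
        Real.exp Real.eulerMascheroniConstant / Real.log a * Real.log n) =O[atTop]
      (fun n : ℕ => Real.sqrt (Real.log n) * (Real.log (Real.log n)) ^ 2)) := by
  refine ⟨fun a b hab h1 h2 p hp hpd => W_special hab h1 h2 hp hpd, fun S hS => ?_, ?_⟩
  · simp only [V_eq] at hS ⊢
    refine Pool.Agent.H176C.all_pairs fun a b ha h1 h2 => ?_
    obtain ⟨m, rfl⟩ := Int.eq_ofNat_of_zero_le (show 0 ≤ a by omega)
    have hm : 1 < m := by exact_mod_cast ha
    filter_upwards [ae_all_iff.2 fun i => Pool.Agent.H176C.law_ptb (b := m) (by omega)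
      (g := Pool.Agent.H176C.gP m b) (Pool.Agent.H176C.κP_nonneg b) (Pool.Agent.H176C.κP_lt hm h1 h2)
      (Pool.Agent.H176C.gP_bound hm h2) (S i) (hS i)] with β hβ h0 i
    simp only [M_eq, Int.cast_natCast]
    exact hβ i h0
  · refine Pool.Agent.H176C.all_pairs fun a b ha h1 h2 => ?_
    obtain ⟨m, rfl⟩ := Int.eq_ofNat_of_zero_le (show 0 ≤ a by omega)
    have hm : 1 < m := by exact_mod_cast ha
    filter_upwards [Pool.Agent.H176C.law_all_ptb (b := m) (by omega)
      (g := Pool.Agent.H176C.gP m b) (Pool.Agent.H176C.κP_nonneg b) (Pool.Agent.H176C.κP_lt hm h1 h2)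
      (Pool.Agent.H176C.gP_bound hm h2)] with β hβ h0
    simp only [M_eq, Int.cast_natCast]
    exact hβ h0

end Pool.Agent.Results.MP_de9007_nt.SparseSetsLaw
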